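import Pool.Agent.Q71.SG.HB

/-!
# Decomposition of functions close to `w ^ c`
-/

namespace Q71.SG

open Metric Set Filter Topology

variable {r : ℝ}

/-- The coordinate. -/
noncomputable def WW (r : ℝ) : HB r := mkHB r fun w => w

theorem ev_WW {w : ℂ} (h : w ∈ ball (0 : ℂ) r) : ev (WW r) w = w :=
  mkHB_apply (M := r) differentiableOn_id (fun w hw => by
    rw [mem_ball_zero_iff] at hw; exact hw.le) h

/-- Division with remainder by `w`. -/
theorem div_exists (hr : 0 < r) (g : HB r) : ∃ g' : HB r, g = (ev g 0) • (1 : HB r) + WW r * g' := by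
  have h0 : (0 : ℂ) ∈ ball (0 : ℂ) r := mem_ball_self hr
  have hd : DifferentiableOn ℂ (dslope (ev g) 0) (ball 0 r) :=
    (Complex.differentiableOn_dslope (ball_mem_nhds 0 hr)).2 (ev_diff g)
  have hb : ∀ w ∈ ball (0 : ℂ) r, ‖dslope (ev g) 0 w‖ ≤ 2 * ‖g‖ / r := fun w hw =>
    Complex.norm_dslope_le_div_of_mapsTo_ball (ev_diff g) (fun x _ => by
      rw [mem_closedBall, dist_eq_norm]
      calc ‖ev g x - ev g 0‖ ≤ ‖ev g x‖ + ‖ev g 0‖ := norm_sub_le _ _
        _ ≤ 2 * ‖g‖ := by linarith [norm_ev_le g x, norm_ev_le g 0]) hw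
  obtain ⟨g', hg'⟩ := exists_hb hd hb
  refine ⟨g', hb_ext fun w hw => ?_⟩
  rw [ev_add, ev_smul, ev_one hw, ev_mul, ev_WW hw, hg' w hw]
  have := sub_smul_dslope (ev g) 0 w
  rw [sub_zero, smul_eq_mul] at this
  rw [this]
  ring

theorem WW_mul_inj (hr : 0 < r) (g : HB r) (h : WW r * g = 0) : g = 0 := by
  have h1 : ∀ w ∈ ball (0 : ℂ) r, w ≠ 0 → ev g w = 0 := by
    intro w hw hw0
    have h2 : ev (WW r * g) w = 0 := by rw [h, ev_zero]
    rw [ev_mul, ev_WW hw] at h2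
    exact (mul_eq_zero.1 h2).resolve_left hw0
  refine hb_ext fun w hw => ?_
  rw [ev_zero]
  by_cases hw0 : w = 0
  · subst hw0
    have hc : ContinuousAt (ev g) 0 :=
      ((ev_diff g).differentiableAt (isOpen_ball.mem_nhds hw)).continuousAt
    have h3 : Tendsto (ev g) (𝓝[≠] 0) (𝓝 (ev g 0)) := hc.tendsto.mono_left nhdsWithin_le_nhds
    have h4 : Tendsto (ev g) (𝓝[≠] 0) (𝓝 0) := by
      refine tendsto_const_nhds.congr' ?_
      filter_upwards [self_mem_nhdsWithin, mem_nhdsWithin_of_mem_nhds (ball_mem_nhds (0 : ℂ) hr)]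
        with x hx hx'
      exact (h1 x hx' hx).symm
    exact tendsto_nhds_unique h3 h4
  · exact h1 w hw hw0

/-- Division with remainder by `w ^ c`. -/
theorem div_pow_exists (hr : 0 < r) (c : ℕ) (g : HB r) : ∃ (a : Fin c → ℂ) (η : HB r),
    g = ∑ j, a j • WW r ^ (j : ℕ) + WW r ^ c * η := by
  induction c generalizing g with
  | zero => exact ⟨Fin.elim0, g, by simp⟩
  | succ c ih =>
    obtain ⟨g', hg'⟩ := div_exists hr g
    obtain ⟨a, η, h⟩ := ih g'
    refine ⟨Fin.cons (ev g 0) a, η, ?_⟩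
    rw [Fin.sum_univ_succ]
    simp only [Fin.cons_zero, Fin.cons_succ, Fin.val_zero, pow_zero, Fin.val_succ]
    conv_lhs => rw [hg', h]
    have hs : ∑ j : Fin c, WW r * (a j • WW r ^ (j : ℕ))
        = ∑ j : Fin c, a j • WW r ^ ((j : ℕ) + 1) := by
      refine Finset.sum_congr rfl fun j _ => ?_
      rw [pow_succ', mul_smul_comm]
    rw [mul_add, Finset.mul_sum, hs, ← mul_assoc, ← pow_succ', add_assoc]

theorem div_pow_inj (hr : 0 < r) (c : ℕ) (a : Fin c → ℂ) (η : HB r)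
    (h : ∑ j, a j • WW r ^ (j : ℕ) + WW r ^ c * η = 0) : a = 0 ∧ η = 0 := by
  induction c with
  | zero =>
    refine ⟨Subsingleton.elim _ _, ?_⟩
    simpa using h
  | succ c ih =>
    rw [Fin.sum_univ_succ] at h
    simp only [Fin.val_zero, pow_zero, Fin.val_succ] at h
    have h1 : a 0 • (1 : HB r) + WW r * (∑ j : Fin c, a j.succ • WW r ^ (j : ℕ) + WW r ^ c * η)
        = 0 := by
      have hs : ∑ j : Fin c, WW r * (a j.succ • WW r ^ (j : ℕ))
          = ∑ j : Fin c, a j.succ • WW r ^ ((j : ℕ) + 1) := by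
        refine Finset.sum_congr rfl fun j _ => ?_
        rw [pow_succ', mul_smul_comm]
      rw [← h, mul_add, Finset.mul_sum, ← add_assoc, hs, ← mul_assoc, ← pow_succ']
    have h0 : (0 : ℂ) ∈ ball (0 : ℂ) r := mem_ball_self hr
    have h2 : a 0 = 0 := by
      have h3 := congrArg (fun f => ev f 0) h1
      simp only [ev_add, ev_smul, ev_one h0, ev_mul, ev_WW h0, ev_zero, mul_one, zero_mul,
        add_zero] at h3
      exact h3
    rw [h2, zero_smul, zero_add] at h1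
    obtain ⟨h4, h5⟩ := ih _ (WW_mul_inj hr _ h1)
    refine ⟨?_, h5⟩
    funext j
    refine Fin.cases h2 (fun i => ?_) j
    exact congrFun h4 i

/-- The map `(a, η) ↦ (w (1 + η)) ^ c + ∑ a_j (w (1 + η)) ^ j`. -/
noncomputable def Theta (r : ℝ) (c : ℕ) (p : (Fin c → ℂ) × HB r) : HB r :=
  (WW r * (1 + p.2)) ^ c + ∑ j, p.1 j • (WW r * (1 + p.2)) ^ (j : ℕ)

theorem Theta_zero (c : ℕ) : Theta r c 0 = WW r ^ c := by
  simp [Theta]

theorem Theta_contDiff (c : ℕ) : ContDiff ℂ 1 (Theta r c) := by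
  unfold Theta
  fun_prop

/-- The linearization. -/
noncomputable def LL (r : ℝ) (c : ℕ) : (Fin c → ℂ) × HB r →L[ℂ] HB r :=
  { toFun := fun p => (c : ℂ) • (WW r ^ c * p.2) + ∑ j, p.1 j • WW r ^ (j : ℕ)
    map_add' := fun p q => by
      simp only [Prod.snd_add, Prod.fst_add, Pi.add_apply, mul_add, smul_add, add_smul,
        Finset.sum_add_distrib]
      abel
    map_smul' := fun t p => by
      simp only [Prod.smul_snd, Prod.smul_fst, Pi.smul_apply, smul_eq_mul, RingHom.id_apply,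
        smul_add, Finset.smul_sum, mul_smul_comm, mul_smul]
      rw [smul_comm]
    cont := by fun_prop }

theorem LL_apply (c : ℕ) (p : (Fin c → ℂ) × HB r) :
    LL r c p = (c : ℂ) • (WW r ^ c * p.2) + ∑ j, p.1 j • WW r ^ (j : ℕ) := rfl

theorem hasFDerivAt_Theta (c : ℕ) (hc : 1 ≤ c) : HasFDerivAt (Theta r c) (LL r c) 0 := by
  have hM : HasFDerivAt (fun p : (Fin c → ℂ) × HB r => WW r * (1 + p.2))
      (WW r • ContinuousLinearMap.snd ℂ (Fin c → ℂ) (HB r)) 0 :=
    (hasFDerivAt_snd.const_add (1 : HB r)).const_mul (WW r)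
  have h1 := hM.pow c
  have h2 : ∀ j : Fin c, HasFDerivAt (fun p : (Fin c → ℂ) × HB r =>
      p.1 j • (WW r * (1 + p.2)) ^ (j : ℕ)) _ 0 := fun j =>
    HasFDerivAt.smul (((ContinuousLinearMap.proj (R := ℂ) (φ := fun _ : Fin c => ℂ) j).comp
      (ContinuousLinearMap.fst ℂ (Fin c → ℂ) (HB r))).hasFDerivAt) (hM.pow (j : ℕ))
  have h3 := h1.add (HasFDerivAt.fun_sum (u := Finset.univ) fun j _ => h2 j)
  refine h3.congr_fderiv ?_
  refine ContinuousLinearMap.ext fun v => ?_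
  simp
  rw [LL_apply]
  congr 1
  have h4 : WW r ^ c = WW r ^ (c - 1) * WW r := by
    rw [← pow_succ]; congr 1; omega
  rw [h4, Nat.cast_smul_eq_nsmul, nsmul_eq_mul]
  ring

/-- The linearization is invertible. -/
theorem LL_bij (hr : 0 < r) (c : ℕ) (hc : 1 ≤ c) :
    Function.Bijective (LL r c) := by
  have hc0 : (c : ℂ) ≠ 0 := by exact_mod_cast (by omega : c ≠ 0)
  constructor
  · intro p q hpq
    have h1 : LL r c (p - q) = 0 := by rw [map_sub, hpq, sub_self]
    rw [LL_apply] at h1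
    have h2 : ∑ j, (p - q).1 j • WW r ^ (j : ℕ) + WW r ^ c * ((c : ℂ) • (p - q).2) = 0 := by
      rw [← h1, mul_smul_comm, add_comm]
    obtain ⟨h3, h4⟩ := div_pow_inj hr c _ _ h2
    have h5 : (p - q).2 = 0 := (smul_eq_zero.1 h4).resolve_left hc0
    exact sub_eq_zero.1 (Prod.ext h3 h5)
  · intro g
    obtain ⟨a, η, h⟩ := div_pow_exists hr c g
    refine ⟨(a, (c : ℂ)⁻¹ • η), ?_⟩
    rw [LL_apply, h]
    simp only
    rw [mul_smul_comm, smul_smul, mul_inv_cancel₀ hc0, one_smul, add_comm]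

/-- The decomposition map. -/
theorem exists_dec (hr : 0 < r) (c : ℕ) (hc : 1 ≤ c) :
    ∃ D : HB r → (Fin c → ℂ) × HB r, D (WW r ^ c) = 0 ∧
      (∀ᶠ g in 𝓝 (WW r ^ c), Theta r c (D g) = g) ∧
      (∀ᶠ g in 𝓝 (WW r ^ c), DifferentiableAt ℂ D g) := by
  let e : ((Fin c → ℂ) × HB r) ≃L[ℂ] HB r := ContinuousLinearEquiv.ofBijective (LL r c)
    (LinearMap.ker_eq_bot.2 (LL_bij hr c hc).1) (LinearMap.range_eq_top.2 (LL_bij hr c hc).2)
  have he : HasFDerivAt (Theta r c) (e : ((Fin c → ℂ) × HB r) →L[ℂ] HB r) 0 := by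
    have : (e : ((Fin c → ℂ) × HB r) →L[ℂ] HB r) = LL r c :=
      ContinuousLinearMap.ext fun v => rfl
    rw [this]
    exact hasFDerivAt_Theta c hc
  have hcd : ContDiffAt ℂ 1 (Theta r c) 0 := (Theta_contDiff c).contDiffAt
  have hs : HasStrictFDerivAt (Theta r c) (e : ((Fin c → ℂ) × HB r) →L[ℂ] HB r) 0 :=
    hcd.hasStrictFDerivAt' he one_ne_zero
  refine ⟨hcd.localInverse he one_ne_zero, ?_, ?_, ?_⟩
  · have := hcd.localInverse_apply_image he one_ne_zero
    rwa [Theta_zero] at this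
  · have := hs.eventually_right_inverse
    rw [Theta_zero] at this
    exact this
  · have := hcd.to_localInverse he one_ne_zero
    rw [Theta_zero] at this
    exact (this.eventually (by simp)).mono fun g hg => hg.differentiableAt one_ne_zero

end Q71.SG
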