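import Pool.Agent.Sq58.Holo

/-!
# The Banach algebra of bounded holomorphic functions on a disc
-/

namespace Q71.SG

open Metric Set Filter Topology BoundedContinuousFunction

variable {r : ℝ}

/-- Extension by zero of a function on the disc. -/
noncomputable def ext0 (f : ball (0 : ℂ) r → ℂ) (w : ℂ) : ℂ := by
  classical exact if h : w ∈ ball (0 : ℂ) r then f ⟨w, h⟩ else 0

theorem ext0_of_mem (f : ball (0 : ℂ) r → ℂ) {w : ℂ} (h : w ∈ ball (0 : ℂ) r) :
    ext0 f w = f ⟨w, h⟩ := by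
  unfold ext0
  rw [dif_pos h]

/-- The bounded holomorphic functions, as a subalgebra. -/
def hbSub (r : ℝ) : Subalgebra ℂ (ball (0 : ℂ) r →ᵇ ℂ) where
  carrier := {f | DifferentiableOn ℂ (ext0 f) (ball 0 r)}
  mul_mem' := by
    intro f g hf hg
    refine (DifferentiableOn.mul hf hg).congr fun w hw => ?_
    rw [Pi.mul_apply, ext0_of_mem _ hw, ext0_of_mem _ hw, ext0_of_mem _ hw]
    rfl
  add_mem' := by
    intro f g hf hg
    refine (DifferentiableOn.add hf hg).congr fun w hw => ?_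
    rw [Pi.add_apply, ext0_of_mem _ hw, ext0_of_mem _ hw, ext0_of_mem _ hw]
    rfl
  algebraMap_mem' := by
    intro c
    refine (differentiableOn_const c).congr fun w hw => ?_
    rw [ext0_of_mem _ hw]
    rfl

/-- The Banach algebra `H^∞` of the disc of radius `r`. -/
abbrev HB (r : ℝ) : Type := hbSub r

theorem isClosed_hb : IsClosed ((hbSub r : Subalgebra ℂ (ball (0 : ℂ) r →ᵇ ℂ)) :
    Set (ball (0 : ℂ) r →ᵇ ℂ)) := by
  refine IsSeqClosed.isClosed ?_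
  intro F g hF hlim
  change DifferentiableOn ℂ (ext0 g) (ball 0 r)
  have hu : TendstoUniformlyOn (fun n => ext0 (F n)) (ext0 g) atTop (ball 0 r) := by
    have h1 := BoundedContinuousFunction.tendsto_iff_tendstoUniformly.1 hlim
    rw [Metric.tendstoUniformlyOn_iff]
    rw [Metric.tendstoUniformly_iff] at h1
    intro ε hε
    filter_upwards [h1 ε hε] with n hn w hw
    rw [ext0_of_mem _ hw, ext0_of_mem _ hw]
    exact hn ⟨w, hw⟩
  exact hu.tendstoLocallyUniformlyOn.differentiableOn (Eventually.of_forall fun n => hF n)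
    isOpen_ball

instance : CompleteSpace (HB r) := isClosed_hb.completeSpace_coe

/-- The value of `f` at `w` (zero outside the disc). -/
noncomputable def ev (f : HB r) (w : ℂ) : ℂ := ext0 f.1 w

theorem ev_of_mem (f : HB r) {w : ℂ} (h : w ∈ ball (0 : ℂ) r) : ev f w = f.1 ⟨w, h⟩ :=
  ext0_of_mem _ h

theorem ev_diff (f : HB r) : DifferentiableOn ℂ (ev f) (ball 0 r) := f.2

theorem ev_of_notMem (f : HB r) {w : ℂ} (h : w ∉ ball (0 : ℂ) r) : ev f w = 0 := by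
  unfold ev ext0
  rw [dif_neg h]

theorem norm_ev_le (f : HB r) (w : ℂ) : ‖ev f w‖ ≤ ‖f‖ := by
  by_cases h : w ∈ ball (0 : ℂ) r
  · rw [ev_of_mem f h]
    exact BoundedContinuousFunction.norm_coe_le_norm f.1 ⟨w, h⟩
  · rw [ev_of_notMem f h, norm_zero]
    exact norm_nonneg _

theorem ev_add (f g : HB r) (w : ℂ) : ev (f + g) w = ev f w + ev g w := by
  by_cases h : w ∈ ball (0 : ℂ) r
  · rw [ev_of_mem _ h, ev_of_mem _ h, ev_of_mem _ h]; rfl
  · rw [ev_of_notMem _ h, ev_of_notMem _ h, ev_of_notMem _ h, add_zero]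

theorem ev_sub (f g : HB r) (w : ℂ) : ev (f - g) w = ev f w - ev g w := by
  by_cases h : w ∈ ball (0 : ℂ) r
  · rw [ev_of_mem _ h, ev_of_mem _ h, ev_of_mem _ h]; rfl
  · rw [ev_of_notMem _ h, ev_of_notMem _ h, ev_of_notMem _ h, sub_zero]

theorem ev_smul (c : ℂ) (f : HB r) (w : ℂ) : ev (c • f) w = c * ev f w := by
  by_cases h : w ∈ ball (0 : ℂ) r
  · rw [ev_of_mem _ h, ev_of_mem _ h]; rfl
  · rw [ev_of_notMem _ h, ev_of_notMem _ h, mul_zero]

theorem ev_mul (f g : HB r) (w : ℂ) : ev (f * g) w = ev f w * ev g w := by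
  by_cases h : w ∈ ball (0 : ℂ) r
  · rw [ev_of_mem _ h, ev_of_mem _ h, ev_of_mem _ h]; rfl
  · rw [ev_of_notMem _ h, ev_of_notMem _ h, zero_mul]

theorem ev_zero (w : ℂ) : ev (0 : HB r) w = 0 := by
  by_cases h : w ∈ ball (0 : ℂ) r
  · rw [ev_of_mem _ h]; rfl
  · rw [ev_of_notMem _ h]

theorem ev_one {w : ℂ} (h : w ∈ ball (0 : ℂ) r) : ev (1 : HB r) w = 1 := by
  rw [ev_of_mem _ h]; rfl

theorem ev_pow (f : HB r) (n : ℕ) {w : ℂ} (h : w ∈ ball (0 : ℂ) r) :
    ev (f ^ n) w = ev f w ^ n := by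
  induction n with
  | zero => rw [pow_zero, pow_zero, ev_one h]
  | succ n ih => rw [pow_succ, pow_succ, ev_mul, ih]

theorem ev_sum {ι : Type*} (s : Finset ι) (f : ι → HB r) (w : ℂ) :
    ev (∑ i ∈ s, f i) w = ∑ i ∈ s, ev (f i) w := by
  classical
  induction s using Finset.induction_on with
  | empty => rw [Finset.sum_empty, Finset.sum_empty, ev_zero]
  | insert a s ha ih => rw [Finset.sum_insert ha, Finset.sum_insert ha, ev_add, ih]

theorem hb_ext {f g : HB r} (h : ∀ w ∈ ball (0 : ℂ) r, ev f w = ev g w) : f = g := by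
  apply Subtype.ext
  ext x
  have := h x.1 x.2
  rwa [ev_of_mem _ x.2, ev_of_mem _ x.2] at this

/-- Constructor. -/
theorem exists_hb {g : ℂ → ℂ} (hd : DifferentiableOn ℂ g (ball 0 r)) {M : ℝ}
    (hM : ∀ w ∈ ball (0 : ℂ) r, ‖g w‖ ≤ M) : ∃ f : HB r, ∀ w ∈ ball (0 : ℂ) r, ev f w = g w := by
  have hc : Continuous fun x : ball (0 : ℂ) r => g x.1 :=
    continuousOn_iff_continuous_domRestrict.1 hd.continuousOn
  let F : ball (0 : ℂ) r →ᵇ ℂ := BoundedContinuousFunction.ofNormedAddCommGroup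
    (fun x : ball (0 : ℂ) r => g x.1) hc M fun x => hM x.1 x.2
  have hF : F ∈ hbSub r := by
    change DifferentiableOn ℂ (ext0 F) (ball 0 r)
    refine hd.congr fun w hw => ?_
    rw [ext0_of_mem _ hw]
    rfl
  refine ⟨⟨F, hF⟩, fun w hw => ?_⟩
  rw [ev_of_mem _ hw]
  rfl

theorem norm_le_of_ev (f : HB r) {M : ℝ} (hM0 : 0 ≤ M)
    (hM : ∀ w ∈ ball (0 : ℂ) r, ‖ev f w‖ ≤ M) : ‖f‖ ≤ M := by
  change ‖f.1‖ ≤ M
  rw [BoundedContinuousFunction.norm_le hM0]
  intro x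
  have := hM x.1 x.2
  rwa [ev_of_mem _ x.2] at this

/-- Total constructor. -/
noncomputable def mkHB (r : ℝ) (g : ℂ → ℂ) : HB r := by
  classical exact if h : ∃ f : HB r, ∀ w ∈ ball (0 : ℂ) r, ev f w = g w then h.choose else 0

theorem mkHB_apply {g : ℂ → ℂ} (hd : DifferentiableOn ℂ g (ball 0 r)) {M : ℝ}
    (hM : ∀ w ∈ ball (0 : ℂ) r, ‖g w‖ ≤ M) {w : ℂ} (hw : w ∈ ball (0 : ℂ) r) :
    ev (mkHB r g) w = g w := by
  have h := exists_hb hd hM
  unfold mkHB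
  rw [dif_pos h]
  exact h.choose_spec w hw

/-- Parametrized maps into `HB r` are holomorphic. -/
theorem differentiableAt_param {E : Type*} [NormedAddCommGroup E] [NormedSpace ℂ E]
    {Q : E → HB r} {G : E × ℂ → ℂ} {x₀ : E} {R M : ℝ} (hR : 0 < R)
    (hd : DifferentiableOn ℂ G (ball x₀ R ×ˢ ball 0 r))
    (hM : ∀ x ∈ ball x₀ R, ∀ w ∈ ball (0 : ℂ) r, ‖G (x, w)‖ ≤ M)
    (hQ : ∀ x ∈ ball x₀ R, ∀ w ∈ ball (0 : ℂ) r, ev (Q x) w = G (x, w)) :
    DifferentiableAt ℂ Q x₀ := by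
  rcases le_or_gt r 0 with hr | hr
  · -- trivial algebra
    have hsub : ∀ f g : HB r, f = g := fun f g => hb_ext fun w hw => by
      rw [ball_eq_empty.2 hr] at hw
      exact absurd hw (notMem_empty w)
    have : Q = fun _ => 0 := funext fun x => hsub _ _
    rw [this]
    exact differentiableAt_const _
  have hM0 : 0 ≤ M := (norm_nonneg _).trans (hM x₀ (mem_ball_self hR) 0 (mem_ball_self hr))
  have hopen : IsOpen (ball x₀ R ×ˢ ball (0 : ℂ) r) := isOpen_ball.prod isOpen_ball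
  have hx : ∀ w ∈ ball (0 : ℂ) r, DifferentiableOn ℂ (fun x => G (x, w)) (ball x₀ R) := by
    intro w hw
    exact hd.comp (by fun_prop : DifferentiableOn ℂ (fun x : E => (x, w)) (ball x₀ R))
      fun x hx => ⟨hx, hw⟩
  have hmaps : ∀ w ∈ ball (0 : ℂ) r, MapsTo (fun x => G (x, w)) (ball x₀ R)
      (closedBall ((fun x => G (x, w)) x₀) (2 * M)) := by
    intro w hw x hx'
    rw [mem_closedBall, dist_eq_norm]
    calc ‖G (x, w) - G (x₀, w)‖ ≤ ‖G (x, w)‖ + ‖G (x₀, w)‖ := norm_sub_le _ _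
      _ ≤ 2 * M := by linarith [hM x hx' w hw, hM x₀ (mem_ball_self hR) w hw]
  have hfb : ∀ w ∈ ball (0 : ℂ) r, ‖fderiv ℂ (fun x => G (x, w)) x₀‖ ≤ 2 * M / R := fun w hw =>
    Complex.norm_fderiv_le_div_of_mapsTo_ball (hx w hw) (hmaps w hw) hR
  -- the derivative
  have hpart : ∀ w ∈ ball (0 : ℂ) r, ∀ v : E, fderiv ℂ (fun x => G (x, w)) x₀ v
      = fderiv ℂ G (x₀, w) (v, 0) := by
    intro w hw v
    have h1 : HasFDerivAt (fun x : E => (x, w)) (ContinuousLinearMap.inl ℂ E ℂ) x₀ := by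
      have := (hasFDerivAt_id (𝕜 := ℂ) x₀).prodMk (hasFDerivAt_const (𝕜 := ℂ) w x₀)
      exact this
    have h2 := (hd.differentiableAt (hopen.mem_nhds ⟨mem_ball_self hR, hw⟩)).hasFDerivAt.comp
      x₀ h1
    have h3 : HasFDerivAt (fun x => G (x, w)) ((fderiv ℂ G (x₀, w)).comp
      (ContinuousLinearMap.inl ℂ E ℂ)) x₀ := h2
    rw [h3.fderiv]
    rfl
  have hLd : ∀ v : E, DifferentiableOn ℂ (fun w => fderiv ℂ (fun x => G (x, w)) x₀ v)
      (ball 0 r) := by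
    intro v
    have h1 := Sq58.Holo.differentiableOn_fderiv_apply hopen hd ((v, 0) : E × ℂ)
    have h2 : DifferentiableOn ℂ (fun w : ℂ => fderiv ℂ G (x₀, w) (v, 0)) (ball 0 r) :=
      h1.comp (by fun_prop : DifferentiableOn ℂ (fun w : ℂ => (x₀, w)) (ball 0 r))
        fun w hw => ⟨mem_ball_self hR, hw⟩
    exact h2.congr fun w hw => hpart w hw v
  have hLb : ∀ v : E, ∀ w ∈ ball (0 : ℂ) r, ‖fderiv ℂ (fun x => G (x, w)) x₀ v‖
      ≤ (2 * M / R) * ‖v‖ := fun v w hw =>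
    (ContinuousLinearMap.le_opNorm _ _).trans
      (mul_le_mul_of_nonneg_right (hfb w hw) (norm_nonneg _))
  choose Lf hLf using fun v : E => exists_hb (hLd v) (hLb v)
  let Llin : E →ₗ[ℂ] HB r :=
    { toFun := Lf
      map_add' := fun v v' => hb_ext fun w hw => by
        rw [ev_add, hLf _ w hw, hLf _ w hw, hLf _ w hw, map_add]
      map_smul' := fun c v => hb_ext fun w hw => by
        rw [RingHom.id_apply, ev_smul, hLf _ w hw, hLf _ w hw, map_smul, smul_eq_mul] }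
  let L : E →L[ℂ] HB r := Llin.mkContinuous (2 * M / R) fun v => norm_le_of_ev _ (by positivity) fun w hw => by
      change ‖ev (Lf v) w‖ ≤ _
      rw [hLf _ w hw]
      exact hLb v w hw
  have hL : ∀ v, ∀ w ∈ ball (0 : ℂ) r, ev (L v) w = fderiv ℂ (fun x => G (x, w)) x₀ v :=
    fun v w hw => hLf v w hw
  refine HasFDerivAt.differentiableAt (f' := L) ?_
  rw [hasFDerivAt_iff_isLittleO]
  have hbig : (fun x => Q x - Q x₀ - L (x - x₀)) =O[𝓝 x₀] fun x => ‖x - x₀‖ ^ 2 := by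
    refine Asymptotics.IsBigO.of_bound (4 * M / R ^ 2) ?_
    filter_upwards [ball_mem_nhds x₀ hR] with x hxx
    refine norm_le_of_ev _ (by positivity) fun w hw => ?_
    rw [ev_sub, ev_sub, hQ x hxx w hw, hQ x₀ (mem_ball_self hR) w hw, hL _ w hw]
    have := Sq58.Holo.norm_sub_sub_fderiv_le hR (hx w hw) (fun x hx' => hM x hx' w hw) hxx
    refine this.trans (le_of_eq ?_)
    rw [Real.norm_eq_abs, abs_of_nonneg (by positivity), div_pow]
    ring
  refine hbig.trans_isLittleO ?_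
  rw [Asymptotics.isLittleO_iff]
  intro c hc
  filter_upwards [ball_mem_nhds x₀ hc] with x hxx
  rw [mem_ball, dist_eq_norm] at hxx
  rw [norm_pow, norm_norm, pow_two]
  exact mul_le_mul_of_nonneg_right hxx.le (norm_nonneg _)

/-- Joint holomorphy of the evaluation. -/
theorem differentiableAt_ev {f₀ : HB r} {w₀ : ℂ} (hw₀ : w₀ ∈ ball (0 : ℂ) r) :
    DifferentiableAt ℂ (fun p : HB r × ℂ => ev p.1 p.2) (f₀, w₀) := by
  have hw₀' : ‖w₀‖ < r := by simpa using hw₀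
  set R : ℝ := r - ‖w₀‖ with hRdef
  have hR : 0 < R := by rw [hRdef]; linarith
  have hsub : ball w₀ R ⊆ ball (0 : ℂ) r := by
    intro w hw
    rw [mem_ball_zero_iff]
    rw [mem_ball, dist_eq_norm] at hw
    calc ‖w‖ = ‖(w - w₀) + w₀‖ := by ring_nf
      _ ≤ ‖w - w₀‖ + ‖w₀‖ := norm_add_le _ _
      _ < r := by rw [hRdef] at hw; linarith
  let elin : HB r →ₗ[ℂ] ℂ :=
    { toFun := fun f => ev f w₀
      map_add' := fun f g => ev_add f g w₀
      map_smul' := fun c f => by rw [ev_smul]; rfl }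
  let e : HB r →L[ℂ] ℂ := elin.mkContinuous 1 fun f => by
      rw [one_mul]; exact norm_ev_le f w₀
  have he : ∀ f, e f = ev f w₀ := fun f => rfl
  let D : HB r × ℂ →L[ℂ] ℂ := e.comp (ContinuousLinearMap.fst ℂ (HB r) ℂ) +
    (deriv (ev f₀) w₀) • ContinuousLinearMap.snd ℂ (HB r) ℂ
  refine HasFDerivAt.differentiableAt (f' := D) ?_
  rw [hasFDerivAt_iff_isLittleO]
  -- the one variable part
  have hf₀ : HasDerivAt (ev f₀) (deriv (ev f₀) w₀) w₀ :=
    ((ev_diff f₀).differentiableAt (isOpen_ball.mem_nhds hw₀)).hasDerivAt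
  have h1 : (fun p : HB r × ℂ => ev f₀ p.2 - ev f₀ w₀ - (p.2 - w₀) * deriv (ev f₀) w₀)
      =o[𝓝 (f₀, w₀)] fun p => p - (f₀, w₀) := by
    have h2 := (hasDerivAt_iff_isLittleO.1 hf₀)
    have h3 : Tendsto (fun p : HB r × ℂ => p.2) (𝓝 (f₀, w₀)) (𝓝 w₀) :=
      continuous_snd.tendsto _
    have h4 : (fun p : HB r × ℂ => ev f₀ p.2 - ev f₀ w₀ - (p.2 - w₀) * deriv (ev f₀) w₀)
      =o[𝓝 (f₀, w₀)] fun p => p.2 - w₀ := h2.comp_tendsto h3
    refine h4.trans_isBigO ?_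
    refine Asymptotics.IsBigO.of_bound 1 (Eventually.of_forall fun p => ?_)
    rw [one_mul]
    exact norm_snd_le (p - (f₀, w₀))
  -- the mixed part
  have h5 : (fun p : HB r × ℂ => ev (p.1 - f₀) p.2 - ev (p.1 - f₀) w₀)
      =o[𝓝 (f₀, w₀)] fun p => p - (f₀, w₀) := by
    have hb : ∀ᶠ p : HB r × ℂ in 𝓝 (f₀, w₀), ‖ev (p.1 - f₀) p.2 - ev (p.1 - f₀) w₀‖
        ≤ (4 / R) * ‖p - (f₀, w₀)‖ * ‖p - (f₀, w₀)‖ := by
      have h6 : ∀ᶠ p : HB r × ℂ in 𝓝 (f₀, w₀), p.2 ∈ ball w₀ (R / 2) :=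
        (continuous_snd.tendsto (f₀, w₀)).eventually (ball_mem_nhds w₀ (by positivity))
      filter_upwards [h6] with p hp
      have h7 := Sq58.Holo.lipschitz_half (f := ev (p.1 - f₀)) (c := w₀) (R := R)
        (M := ‖p.1 - f₀‖) ((ev_diff (p.1 - f₀)).mono hsub) (fun z _ => norm_ev_le _ _)
        (w := w₀) (z := p.2) (mem_ball_self (by positivity)) hp
      have h8 : ‖p.1 - f₀‖ ≤ ‖p - (f₀, w₀)‖ := norm_fst_le (p - (f₀, w₀))
      have h9 : ‖p.2 - w₀‖ ≤ ‖p - (f₀, w₀)‖ := norm_snd_le (p - (f₀, w₀))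
      refine h7.trans ?_
      have h12 : 4 * ‖p.1 - f₀‖ / R ≤ 4 / R * ‖p - (f₀, w₀)‖ := by
        have : 4 * ‖p.1 - f₀‖ / R = 4 / R * ‖p.1 - f₀‖ := by ring
        rw [this]
        exact mul_le_mul_of_nonneg_left h8 (by positivity)
      have h13 : 0 ≤ 4 / R * ‖p - (f₀, w₀)‖ := mul_nonneg (by positivity) (norm_nonneg _)
      exact mul_le_mul h12 h9 (norm_nonneg _) h13
    rw [Asymptotics.isLittleO_iff]
    intro c hc
    have h10 : ∀ᶠ p : HB r × ℂ in 𝓝 (f₀, w₀), ‖p - (f₀, w₀)‖ < c * R / 4 := by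
      have : Tendsto (fun p : HB r × ℂ => ‖p - (f₀, w₀)‖) (𝓝 (f₀, w₀)) (𝓝 0) := by
        have h11 : Continuous fun p : HB r × ℂ => ‖p - (f₀, w₀)‖ := by fun_prop
        have := h11.tendsto (f₀, w₀)
        simpa using this
      exact this.eventually (gt_mem_nhds (by positivity))
    filter_upwards [hb, h10] with p hp1 hp2
    refine hp1.trans (mul_le_mul_of_nonneg_right ?_ (norm_nonneg _))
    have : 4 / R * ‖p - (f₀, w₀)‖ ≤ 4 / R * (c * R / 4) :=
      mul_le_mul_of_nonneg_left hp2.le (by positivity)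
    refine this.trans (le_of_eq ?_)
    field_simp
  refine (h1.add h5).congr_left fun p => ?_
  have hD : D (p - (f₀, w₀)) = ev (p.1 - f₀) w₀ + (p.2 - w₀) * deriv (ev f₀) w₀ := by
    change e (p.1 - f₀) + deriv (ev f₀) w₀ * (p.2 - w₀) = _
    rw [he, mul_comm]
  rw [hD]
  simp only [ev_sub]
  ring

end Q71.SG
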