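import Pool.Agent.Sq58.Holo

/-!
# A functional equation
-/

namespace Q71.SG

open Metric Set Filter Topology

variable {Y : Type*} [NormedAddCommGroup Y] [NormedSpace ℂ Y]

/-- The iterates. -/
noncomputable def iter (E : ℂ × Y → Y) (d : ℕ) : ℕ → ℂ → Y
  | 0 => fun _ => 0
  | n + 1 => fun z => E (z, iter E d n (z ^ d))

theorem exists_fixed [CompleteSpace Y] (E : ℂ × Y → Y) (h0 : E (0, 0) = 0)
    (hE : ∀ᶠ p in 𝓝 ((0, 0) : ℂ × Y), DifferentiableAt ℂ E p) (d : ℕ) (hd : 2 ≤ d) :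
    ∃ u : ℂ → Y, u 0 = 0 ∧ (∀ᶠ z in 𝓝 (0 : ℂ), DifferentiableAt ℂ u z) ∧
      ∀ᶠ z in 𝓝 (0 : ℂ), u z = E (z, u (z ^ d)) := by
  obtain ⟨ρ₀, hρ₀, hρ₀d⟩ := Metric.eventually_nhds_iff_ball.1 hE
  obtain ⟨ρ, hρ, M, hM0, hρsub, hM⟩ := Sq58.Holo.exists_bound (isOpen_ball (x := ((0, 0) : ℂ × Y))
    (ε := ρ₀)) (fun p hp => (hρ₀d p hp).differentiableWithinAt) (mem_ball_self hρ₀)
  have hEd : DifferentiableOn ℂ E (ball (0, 0) ρ) := fun p hp =>
    (hρ₀d p (hρsub hp)).differentiableWithinAt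
  set K : ℝ := max (4 * M / ρ) 1 with hK
  have hK1 : 1 ≤ K := le_max_right _ _
  have hK0 : 0 < K := by linarith
  have hLip : ∀ x ∈ ball ((0, 0) : ℂ × Y) (ρ / 4), ∀ y ∈ ball ((0, 0) : ℂ × Y) (ρ / 4),
      ‖E x - E y‖ ≤ K * ‖x - y‖ := by
    intro x hx y hy
    have h1 : y ∈ ball ((0, 0) : ℂ × Y) (ρ / 2) := ball_subset_ball (by linarith) hy
    have h2 : x ∈ ball y (ρ / 2) := by
      rw [mem_ball] at hx hy ⊢
      calc dist x y ≤ dist x (0, 0) + dist y (0, 0) := dist_triangle_right _ _ _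
        _ < ρ / 2 := by linarith
    refine (Sq58.Holo.lipschitz_half hEd hM h1 h2).trans ?_
    exact mul_le_mul_of_nonneg_right (le_max_left _ _) (norm_nonneg _)
  -- the radius
  obtain ⟨δ, hδ0, hδ1, hδρ, hδK⟩ : ∃ δ : ℝ, 0 < δ ∧ δ ≤ 1 ∧ δ ≤ ρ / 4 ∧ K * δ ≤ 1 / 2 := by
    refine ⟨min 1 (min (ρ / 4) (1 / (2 * K))), by positivity, min_le_left _ _,
      (min_le_right _ _).trans (min_le_left _ _), ?_⟩
    have : min 1 (min (ρ / 4) (1 / (2 * K))) ≤ 1 / (2 * K) :=
      (min_le_right _ _).trans (min_le_right _ _)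
    calc K * min 1 (min (ρ / 4) (1 / (2 * K))) ≤ K * (1 / (2 * K)) :=
          mul_le_mul_of_nonneg_left this hK0.le
      _ = 1 / 2 := by field_simp
  have hpow : ∀ z ∈ ball (0 : ℂ) δ, ‖z ^ d‖ ≤ δ * ‖z‖ := by
    intro z hz
    rw [mem_ball_zero_iff] at hz
    have h1 : ‖z‖ ^ d ≤ ‖z‖ ^ 2 := pow_le_pow_of_le_one (norm_nonneg _) (by linarith) hd
    rw [norm_pow]
    nlinarith [norm_nonneg z]
  have hpow' : ∀ z ∈ ball (0 : ℂ) δ, z ^ d ∈ ball (0 : ℂ) δ := by
    intro z hz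
    have h1 := hpow z hz
    rw [mem_ball_zero_iff] at hz ⊢
    nlinarith [norm_nonneg z]
  have hdom : ∀ z ∈ ball (0 : ℂ) δ, ∀ η : Y, ‖η‖ ≤ K * ‖z ^ d‖ →
      (z, η) ∈ ball ((0, 0) : ℂ × Y) (ρ / 4) ∧ ‖η‖ ≤ ‖z‖ := by
    intro z hz η hη
    have h1 := hpow z hz
    have hz' := hz
    rw [mem_ball_zero_iff] at hz
    have h2 : ‖η‖ ≤ ‖z‖ := by
      have h3 : K * ‖z ^ d‖ ≤ K * (δ * ‖z‖) := mul_le_mul_of_nonneg_left h1 hK0.le
      have h4 : K * (δ * ‖z‖) = (K * δ) * ‖z‖ := by ring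
      have h5 : (K * δ) * ‖z‖ ≤ 1 / 2 * ‖z‖ := mul_le_mul_of_nonneg_right hδK (norm_nonneg _)
      have := norm_nonneg z
      linarith
    refine ⟨?_, h2⟩
    rw [mem_ball, Prod.dist_eq, dist_zero_right, dist_zero_right]
    exact max_lt (by linarith) (by linarith)
  have hEb : ∀ z ∈ ball (0 : ℂ) δ, ∀ η : Y, ‖η‖ ≤ K * ‖z ^ d‖ → ‖E (z, η)‖ ≤ K * ‖z‖ := by
    intro z hz η hη
    obtain ⟨h1, h2⟩ := hdom z hz η hη
    have h3 := hLip _ h1 _ (mem_ball_self (by positivity))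
    rw [h0, sub_zero] at h3
    refine h3.trans (mul_le_mul_of_nonneg_left ?_ hK0.le)
    have : ((z, η) : ℂ × Y) - (0, 0) = (z, η) := sub_zero _
    rw [this, Prod.norm_def]
    exact max_le le_rfl h2
  -- bounds of the iterates
  have hb : ∀ n, ∀ z ∈ ball (0 : ℂ) δ, ‖iter E d n z‖ ≤ K * ‖z‖ := by
    intro n
    induction n with
    | zero =>
      intro z _
      simp only [iter, norm_zero]
      positivity
    | succ n ih =>
      intro z hz
      exact hEb z hz _ (ih _ (hpow' z hz))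
  have hdiff : ∀ n, DifferentiableOn ℂ (iter E d n) (ball 0 δ) := by
    intro n
    induction n with
    | zero => exact differentiableOn_const _
    | succ n ih =>
      intro z hz
      have h1 : DifferentiableAt ℂ (fun z : ℂ => (z, iter E d n (z ^ d))) z := by
        have h2 : DifferentiableAt ℂ (iter E d n) (z ^ d) :=
          ih.differentiableAt (isOpen_ball.mem_nhds (hpow' z hz))
        have h3 : DifferentiableAt ℂ (fun z : ℂ => iter E d n (z ^ d)) z :=
          h2.comp z (differentiableAt_id.pow d)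
        exact differentiableAt_id.prodMk h3
      have h4 : DifferentiableAt ℂ E (z, iter E d n (z ^ d)) := by
        refine hEd.differentiableAt (isOpen_ball.mem_nhds ?_)
        exact ball_subset_ball (by linarith) (hdom z hz _ (hb n _ (hpow' z hz))).1
      exact (h4.comp z h1).differentiableWithinAt
  have hstep : ∀ n, ∀ z ∈ ball (0 : ℂ) δ,
      ‖iter E d (n + 1) z - iter E d n z‖ ≤ K * ‖z‖ * (1 / 2) ^ n := by
    intro n
    induction n with
    | zero =>
      intro z hz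
      have := hb 1 z hz
      simpa [iter] using this
    | succ n ih =>
      intro z hz
      have h1 := hLip _ (hdom z hz _ (hb (n + 1) _ (hpow' z hz))).1 _
        (hdom z hz _ (hb n _ (hpow' z hz))).1
      refine h1.trans ?_
      have h2 : ‖((z, iter E d (n + 1) (z ^ d)) : ℂ × Y) - (z, iter E d n (z ^ d))‖
          = ‖iter E d (n + 1) (z ^ d) - iter E d n (z ^ d)‖ := by
        rw [Prod.mk_sub_mk, sub_self, Prod.norm_def, norm_zero]
        exact max_eq_right (norm_nonneg _)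
      rw [h2]
      have h3 := ih (z ^ d) (hpow' z hz)
      have h4 := hpow z hz
      calc K * ‖iter E d (n + 1) (z ^ d) - iter E d n (z ^ d)‖
          ≤ K * (K * (δ * ‖z‖) * (1 / 2) ^ n) := by
            refine mul_le_mul_of_nonneg_left (h3.trans ?_) hK0.le
            exact mul_le_mul_of_nonneg_right (mul_le_mul_of_nonneg_left h4 hK0.le) (by positivity)
        _ = (K * δ) * (K * ‖z‖ * (1 / 2) ^ n) := by ring
        _ ≤ 1 / 2 * (K * ‖z‖ * (1 / 2) ^ n) := mul_le_mul_of_nonneg_right hδK (by positivity)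
        _ = K * ‖z‖ * (1 / 2) ^ (n + 1) := by ring
  -- the limit
  have hex : ∀ z ∈ ball (0 : ℂ) δ, ∃ y : Y, Tendsto (fun n => iter E d n z) atTop (𝓝 y) := by
    intro z hz
    refine cauchySeq_tendsto_of_complete (cauchySeq_of_le_geometric (1 / 2) (K * ‖z‖)
      (by norm_num) fun n => ?_)
    rw [dist_comm, dist_eq_norm]
    exact hstep n z hz
  choose! u hu using hex
  have hub : ∀ z ∈ ball (0 : ℂ) δ, ‖u z‖ ≤ K * ‖z‖ := fun z hz =>
    le_of_tendsto (hu z hz).norm (Eventually.of_forall fun n => hb n z hz)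
  have hdist : ∀ n, ∀ z ∈ ball (0 : ℂ) δ, dist (iter E d n z) (u z)
      ≤ K * ‖z‖ * (1 / 2) ^ n / (1 - 1 / 2) := by
    intro n z hz
    refine dist_le_of_le_geometric_of_tendsto (1 / 2) (K * ‖z‖) (by norm_num) (fun n => ?_)
      (hu z hz) n
    rw [dist_comm, dist_eq_norm]
    exact hstep n z hz
  have huni : TendstoUniformlyOn (iter E d) u atTop (ball 0 δ) := by
    rw [Metric.tendstoUniformlyOn_iff]
    intro ε hε
    have h1 : Tendsto (fun n : ℕ => K * 1 * (1 / 2 : ℝ) ^ n / (1 - 1 / 2)) atTop (𝓝 0) := by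
      have h2 := (tendsto_pow_atTop_nhds_zero_of_lt_one (r := (1 / 2 : ℝ)) (by norm_num)
        (by norm_num)).const_mul (K * 1)
      have h3 := h2.div_const (1 - 1 / 2)
      simpa using h3
    filter_upwards [h1.eventually (gt_mem_nhds hε)] with n hn z hz
    rw [dist_comm]
    refine lt_of_le_of_lt (hdist n z hz) (lt_of_le_of_lt ?_ hn)
    have hz' : ‖z‖ ≤ 1 := by
      rw [mem_ball_zero_iff] at hz; linarith
    have h4 : K * ‖z‖ ≤ K * 1 := mul_le_mul_of_nonneg_left hz' hK0.le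
    have h5 : (0 : ℝ) ≤ (1 / 2) ^ n := by positivity
    refine div_le_div_of_nonneg_right (mul_le_mul_of_nonneg_right h4 h5) (by norm_num)
  have hud : DifferentiableOn ℂ u (ball 0 δ) :=
    huni.tendstoLocallyUniformlyOn.differentiableOn (Eventually.of_forall hdiff) isOpen_ball
  have hfix : ∀ z ∈ ball (0 : ℂ) δ, u z = E (z, u (z ^ d)) := by
    intro z hz
    have h1 : Tendsto (fun n => iter E d (n + 1) z) atTop (𝓝 (u z)) :=
      (hu z hz).comp (tendsto_add_atTop_nat 1)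
    have h2 : ContinuousAt E (z, u (z ^ d)) := by
      refine (hEd.differentiableAt (isOpen_ball.mem_nhds ?_)).continuousAt
      exact ball_subset_ball (by linarith) (hdom z hz _ (hub _ (hpow' z hz))).1
    have h3 : Tendsto (fun n => ((z, iter E d n (z ^ d)) : ℂ × Y)) atTop (𝓝 (z, u (z ^ d))) :=
      tendsto_const_nhds.prodMk_nhds (hu _ (hpow' z hz))
    exact tendsto_nhds_unique h1 (h2.tendsto.comp h3)
  refine ⟨u, ?_, ?_, ?_⟩
  · have := hub 0 (mem_ball_self hδ0)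
    rw [norm_zero, mul_zero] at this
    exact norm_le_zero_iff.1 this
  · filter_upwards [ball_mem_nhds (0 : ℂ) hδ0] with z hz
    exact hud.differentiableAt (isOpen_ball.mem_nhds hz)
  · filter_upwards [ball_mem_nhds (0 : ℂ) hδ0] with z hz
    exact hfix z hz

end Q71.SG
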