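import Pool.Agent.Q71.SG.Dec
import Pool.Agent.Q71.SG.Iter

/-!
# Analytic normal forms of superattracting skew germs
-/

namespace Q71.SG

open Metric Set Filter Topology

/-- `f` is holomorphic in a neighbourhood of `p`. -/
def HolAt {E F : Type*} [NormedAddCommGroup E] [NormedSpace ℂ E] [NormedAddCommGroup F]
    [NormedSpace ℂ F] (f : E → F) (p : E) : Prop := ∀ᶠ x in 𝓝 p, DifferentiableAt ℂ f x

/-- `Φ` is (a representative of) a germ of biholomorphism of `(ℂ², 0)`. -/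
def IsBihol (Φ : ℂ × ℂ → ℂ × ℂ) : Prop :=
  Φ 0 = 0 ∧ HolAt Φ 0 ∧ ∃ Ψ : ℂ × ℂ → ℂ × ℂ, Ψ 0 = 0 ∧ HolAt Ψ 0 ∧
    (∀ᶠ p in 𝓝 0, Ψ (Φ p) = p) ∧ ∀ᶠ p in 𝓝 0, Φ (Ψ p) = p

/-- The map `(z, w) ↦ (z ^ d, w ^ c + z h(z, w))`. -/
def skew (d c : ℕ) (h : ℂ × ℂ → ℂ) (p : ℂ × ℂ) : ℂ × ℂ := (p.1 ^ d, p.2 ^ c + p.1 * h p)

/-- The map `(z, w) ↦ (z ^ d, w ^ c + ∑_{j < c} a_j(z) w ^ j)`. -/
def normalForm (d c : ℕ) (a : Fin c → ℂ → ℂ) (p : ℂ × ℂ) : ℂ × ℂ :=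
  (p.1 ^ d, p.2 ^ c + ∑ j, a j p.1 * p.2 ^ (j : ℕ))

theorem isBihol_of {Φ : ℂ × ℂ → ℂ × ℂ} (h0 : Φ 0 = 0) (hΦ : HolAt Φ 0)
    (hd : HasFDerivAt Φ (ContinuousLinearMap.id ℂ (ℂ × ℂ)) 0) : IsBihol Φ := by
  refine ⟨h0, hΦ, ?_⟩
  obtain ⟨ρ, hρ, hρd⟩ := Metric.eventually_nhds_iff_ball.1 hΦ
  have hc : ContDiffAt ℂ 1 Φ 0 := by
    have := Sq58.Holo.contDiffOn_of_differentiableOn (isOpen_ball (x := (0 : ℂ × ℂ)) (ε := ρ))
      (fun p hp => (hρd p hp).differentiableWithinAt) 1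
    exact (this.contDiffAt (ball_mem_nhds 0 hρ))
  have hd' : HasFDerivAt Φ ((ContinuousLinearEquiv.refl ℂ (ℂ × ℂ) : (ℂ × ℂ) ≃L[ℂ] (ℂ × ℂ)) :
      (ℂ × ℂ) →L[ℂ] (ℂ × ℂ)) 0 := hd
  have hs := hc.hasStrictFDerivAt' hd' one_ne_zero
  refine ⟨hc.localInverse hd' one_ne_zero, ?_, ?_, ?_, ?_⟩
  · have := hc.localInverse_apply_image hd' one_ne_zero
    rwa [h0] at this
  · have := hc.to_localInverse hd' one_ne_zero
    rw [h0] at this
    exact (this.eventually (by simp)).mono fun g hg => hg.differentiableAt one_ne_zero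
  · exact hs.eventually_left_inverse
  · have := hs.eventually_right_inverse
    rw [h0] at this
    exact this

/-- **Every germ is analytically conjugate to an analytic normal form.** -/
theorem exists_normalForm (d c : ℕ) (hc : 2 ≤ c) (hdc : c < d) (h : ℂ × ℂ → ℂ) (hh : HolAt h 0)
    (hh0 : h 0 = 0) : ∃ a : Fin c → ℂ → ℂ, (∀ j, AnalyticAt ℂ (a j) 0 ∧ a j 0 = 0) ∧
      ∃ Φ : ℂ × ℂ → ℂ × ℂ, IsBihol Φ ∧
        ∀ᶠ p in 𝓝 0, Φ (skew d c h p) = normalForm d c a (Φ p) := by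
  -- the bidisc
  have hcont : ContinuousAt h 0 := hh.self_of_nhds.continuousAt
  have hsmall : ∀ᶠ p in 𝓝 (0 : ℂ × ℂ), ‖h p‖ < 1 := by
    have : ‖h 0‖ < 1 := by rw [hh0, norm_zero]; exact one_pos
    exact hcont.norm.eventually_lt continuousAt_const this
  obtain ⟨ρ₀, hρ₀, hρ₀d⟩ := Metric.eventually_nhds_iff_ball.1 (hh.and hsmall)
  set ρ : ℝ := min ρ₀ 1 with hρdef
  have hρ : 0 < ρ := lt_min hρ₀ one_pos
  have hρ1 : ρ ≤ 1 := min_le_right _ _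
  have hρd : ∀ p ∈ ball (0 : ℂ × ℂ) ρ, DifferentiableAt ℂ h p ∧ ‖h p‖ < 1 := fun p hp =>
    hρ₀d p (ball_subset_ball (min_le_left _ _) hp)
  set r : ℝ := ρ / 2 with hrdef
  have hr : 0 < r := by positivity
  have hr1 : r ≤ 1 / 2 := by rw [hrdef]; linarith
  set δ : ℝ := r / 2 with hδdef
  have hδ : 0 < δ := by positivity
  have hmem : ∀ z w : ℂ, ‖z‖ < δ → ‖w‖ < r → (z, w) ∈ ball (0 : ℂ × ℂ) ρ := by
    intro z w hz hw
    rw [mem_ball_zero_iff, Prod.norm_def]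
    exact max_lt (by simp only; linarith) (by simp only; linarith)
  let F : ℂ × ℂ → ℂ := fun p => p.2 ^ c + p.1 * h p
  have hFd : ∀ p ∈ ball (0 : ℂ × ℂ) ρ, DifferentiableAt ℂ F p := by
    intro p hp
    have := (hρd p hp).1
    fun_prop
  have hFb : ∀ z w : ℂ, ‖z‖ < δ → ‖w‖ < r → ‖F (z, w)‖ < r := by
    intro z w hz hw
    have h1 := (hρd _ (hmem z w hz hw)).2
    have h2 : ‖w ^ c‖ ≤ r / 2 := by
      rw [norm_pow]
      calc ‖w‖ ^ c ≤ ‖w‖ ^ 2 := pow_le_pow_of_le_one (norm_nonneg _) (by linarith) hc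
        _ ≤ r / 2 := by nlinarith [norm_nonneg w]
    have h3 : ‖z * h (z, w)‖ < r / 2 := by
      rw [norm_mul]
      calc ‖z‖ * ‖h (z, w)‖ ≤ ‖z‖ * 1 := mul_le_mul_of_nonneg_left h1.le (norm_nonneg _)
        _ < r / 2 := by rw [mul_one]; exact hz
    calc ‖F (z, w)‖ ≤ ‖w ^ c‖ + ‖z * h (z, w)‖ := norm_add_le _ _
      _ < r := by linarith
  -- the function of `(z, η, w)`
  let G : (ℂ × HB r) × ℂ → ℂ := fun q => F (q.1.1, q.2) * (1 + ev q.1.2 (F (q.1.1, q.2)))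
  have hGd : ∀ q : (ℂ × HB r) × ℂ, ‖q.1.1‖ < δ → ‖q.2‖ < r → DifferentiableAt ℂ G q := by
    intro q hz hw
    have h1 : DifferentiableAt ℂ (fun q : (ℂ × HB r) × ℂ => F (q.1.1, q.2)) q := by
      have h2 : DifferentiableAt ℂ (fun q : (ℂ × HB r) × ℂ => (q.1.1, q.2)) q := by fun_prop
      exact (hFd _ (hmem _ _ hz hw)).comp q h2
    have h3 : DifferentiableAt ℂ (fun q : (ℂ × HB r) × ℂ => ev q.1.2 (F (q.1.1, q.2))) q := by
      have h4 : DifferentiableAt ℂ (fun q : (ℂ × HB r) × ℂ => (q.1.2, F (q.1.1, q.2))) q :=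
        (by fun_prop : DifferentiableAt ℂ (fun q : (ℂ × HB r) × ℂ => q.1.2) q).prodMk h1
      have h5 : F (q.1.1, q.2) ∈ ball (0 : ℂ) r := by
        rw [mem_ball_zero_iff]; exact hFb _ _ hz hw
      exact (differentiableAt_ev (f₀ := q.1.2) h5).comp q h4
    exact h1.mul (h3.const_add 1)
  have hGb : ∀ q : (ℂ × HB r) × ℂ, ‖q.1.1‖ < δ → ‖q.2‖ < r → ‖G q‖ ≤ r * (1 + ‖q.1.2‖) := by
    intro q hz hw
    rw [norm_mul]
    refine mul_le_mul (hFb _ _ hz hw).le ?_ (norm_nonneg _) hr.le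
    refine (norm_add_le _ _).trans ?_
    rw [norm_one]
    have := norm_ev_le q.1.2 (F (q.1.1, q.2))
    linarith
  let Γ : ℂ × HB r → HB r := fun x => mkHB r fun w => G (x, w)
  have hΓ : ∀ x : ℂ × HB r, ‖x.1‖ < δ → ∀ w ∈ ball (0 : ℂ) r, ev (Γ x) w = G (x, w) := by
    intro x hx w hw
    refine mkHB_apply (M := r * (1 + ‖x.2‖)) ?_ (fun w hw => ?_) hw
    · intro w hw
      rw [mem_ball_zero_iff] at hw
      have h2 : DifferentiableAt ℂ (fun w : ℂ => (x, w)) w := by fun_prop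
      exact ((hGd (x, w) hx hw).comp w h2).differentiableWithinAt
    · rw [mem_ball_zero_iff] at hw
      exact hGb (x, w) hx hw
  have hΓd : ∀ x : ℂ × HB r, ‖x.1‖ < δ → DifferentiableAt ℂ Γ x := by
    intro x hx
    set R : ℝ := min (δ - ‖x.1‖) 1 with hRdef
    have hR : 0 < R := lt_min (by linarith) one_pos
    have hball : ∀ y ∈ ball x R, ‖y.1‖ < δ ∧ ‖y.2‖ ≤ ‖x.2‖ + 1 := by
      intro y hy
      rw [mem_ball, dist_eq_norm] at hy
      have h1 : ‖y.1 - x.1‖ ≤ ‖y - x‖ := norm_fst_le (y - x)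
      have h2 : ‖y.2 - x.2‖ ≤ ‖y - x‖ := norm_snd_le (y - x)
      have h3 : R ≤ δ - ‖x.1‖ := min_le_left _ _
      have h4 : R ≤ 1 := min_le_right _ _
      constructor
      · calc ‖y.1‖ = ‖(y.1 - x.1) + x.1‖ := by rw [sub_add_cancel]
          _ ≤ ‖y.1 - x.1‖ + ‖x.1‖ := norm_add_le _ _
          _ < δ := by linarith
      · calc ‖y.2‖ = ‖(y.2 - x.2) + x.2‖ := by rw [sub_add_cancel]
          _ ≤ ‖y.2 - x.2‖ + ‖x.2‖ := norm_add_le _ _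
          _ ≤ ‖x.2‖ + 1 := by linarith
    refine differentiableAt_param (G := G) (M := r * (1 + (‖x.2‖ + 1))) hR ?_ ?_ ?_
    · rintro ⟨y, w⟩ ⟨hy, hw⟩
      rw [mem_ball_zero_iff] at hw
      exact (hGd (y, w) (hball y hy).1 hw).differentiableWithinAt
    · intro y hy w hw
      rw [mem_ball_zero_iff] at hw
      refine (hGb (y, w) (hball y hy).1 hw).trans ?_
      refine mul_le_mul_of_nonneg_left ?_ hr.le
      have := (hball y hy).2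
      simp only
      linarith
    · intro y hy w hw
      exact hΓ y (hball y hy).1 w hw
  have hΓ0 : Γ (0, 0) = WW r ^ c := by
    refine hb_ext fun w hw => ?_
    rw [hΓ (0, 0) (by simpa using hδ) w hw, ev_pow _ _ hw, ev_WW hw]
    simp only [G, F, zero_mul, add_zero, ev_zero, mul_one]
  -- the decomposition
  obtain ⟨D, hD0, hDΘ, hDd⟩ := exists_dec hr c (by omega)
  let E : ℂ × HB r → HB r := fun x => (D (Γ x)).2
  have hE0 : E (0, 0) = 0 := by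
    simp only [E, hΓ0, hD0]
    rfl
  have hΓc : Tendsto Γ (𝓝 (0, 0)) (𝓝 (WW r ^ c)) := by
    have := (hΓd (0, 0) (by simpa using hδ)).continuousAt.tendsto
    rwa [hΓ0] at this
  have hev1 : ∀ᶠ x : ℂ × HB r in 𝓝 (0, 0), ‖x.1‖ < δ := by
    have h1 : Continuous fun x : ℂ × HB r => ‖x.1‖ := by fun_prop
    exact h1.continuousAt.eventually_lt continuousAt_const (by simpa using hδ)
  have hDΓ : ∀ᶠ x in 𝓝 ((0, 0) : ℂ × HB r), DifferentiableAt ℂ (fun x => D (Γ x)) x := by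
    filter_upwards [hΓc.eventually hDd, hev1] with x hx1 hx2
    exact hx1.comp x (hΓd x hx2)
  have hEd : ∀ᶠ x in 𝓝 ((0, 0) : ℂ × HB r), DifferentiableAt ℂ E x := by
    filter_upwards [hDΓ] with x hx
    exact hx.snd
  obtain ⟨u, hu0, hud, hufix⟩ := exists_fixed E hE0 hEd d (by omega)
  -- the point `(z, u(z^d))`
  have huc : Tendsto u (𝓝 0) (𝓝 0) := by
    have := hud.self_of_nhds.continuousAt.tendsto
    rwa [hu0] at this
  have hzd : Tendsto (fun z : ℂ => z ^ d) (𝓝 0) (𝓝 0) := by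
    have : ContinuousAt (fun z : ℂ => z ^ d) 0 := by fun_prop
    have h1 := this.tendsto
    rwa [zero_pow (by omega)] at h1
  have hX : Tendsto (fun z : ℂ => ((z, u (z ^ d)) : ℂ × HB r)) (𝓝 0) (𝓝 (0, 0)) :=
    (tendsto_id (α := ℂ)).prodMk_nhds (huc.comp hzd)
  have hXd : ∀ᶠ z in 𝓝 (0 : ℂ), DifferentiableAt ℂ (fun z : ℂ => ((z, u (z ^ d)) : ℂ × HB r)) z := by
    filter_upwards [hzd.eventually hud] with z hz
    exact differentiableAt_id.prodMk (hz.comp z (differentiableAt_id.pow d))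
  have hAd : ∀ᶠ z in 𝓝 (0 : ℂ), DifferentiableAt ℂ (fun z => D (Γ (z, u (z ^ d)))) z := by
    filter_upwards [hXd, hX.eventually hDΓ] with z h1 h2
    exact DifferentiableAt.comp (g := fun x => D (Γ x)) z h2 h1
  let a : Fin c → ℂ → ℂ := fun j z => (D (Γ (z, u (z ^ d)))).1 j
  have hA0 : D (Γ (0, u (0 ^ d))) = 0 := by
    rw [zero_pow (by omega), hu0, hΓ0, hD0]
  have ha : ∀ j, AnalyticAt ℂ (a j) 0 ∧ a j 0 = 0 := by
    intro j
    constructor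
    · rw [Complex.analyticAt_iff_eventually_differentiableAt]
      filter_upwards [hAd] with z hz
      have h1 : DifferentiableAt ℂ (fun z => (D (Γ (z, u (z ^ d)))).1) z := hz.fst
      exact (differentiableAt_pi.1 h1) j
    · simp only [a, hA0]
      rfl
  -- the conjugacy
  let q : ℂ × ℂ → ℂ := fun p => ev (u p.1) p.2
  let Φ : ℂ × ℂ → ℂ × ℂ := fun p => (p.1, p.2 * (1 + q p))
  have hqd : ∀ᶠ p in 𝓝 (0 : ℂ × ℂ), DifferentiableAt ℂ q p := by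
    have h1 : ∀ᶠ p in 𝓝 (0 : ℂ × ℂ), DifferentiableAt ℂ u p.1 :=
      (continuous_fst.tendsto (0 : ℂ × ℂ)).eventually hud
    have h2 : ∀ᶠ p in 𝓝 (0 : ℂ × ℂ), p.2 ∈ ball (0 : ℂ) r :=
      (continuous_snd.tendsto (0 : ℂ × ℂ)).eventually (ball_mem_nhds _ hr)
    filter_upwards [h1, h2] with p hp1 hp2
    have h3 : DifferentiableAt ℂ (fun p : ℂ × ℂ => (u p.1, p.2)) p :=
      (hp1.comp p differentiableAt_fst).prodMk differentiableAt_snd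
    exact (differentiableAt_ev (f₀ := u p.1) hp2).comp p h3
  have hΦ0 : Φ 0 = 0 := by
    simp only [Φ, Prod.fst_zero, Prod.snd_zero, zero_mul]
    rfl
  have hΦd : HolAt Φ 0 := by
    filter_upwards [hqd] with p hp
    exact differentiableAt_fst.prodMk (differentiableAt_snd.mul (hp.const_add 1))
  have hq0 : q 0 = 0 := by
    simp only [q, Prod.fst_zero, Prod.snd_zero, hu0, ev_zero]
  have hΦ' : HasFDerivAt Φ (ContinuousLinearMap.id ℂ (ℂ × ℂ)) 0 := by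
    have h1 := hqd.self_of_nhds.hasFDerivAt
    have h2 : HasFDerivAt (fun p : ℂ × ℂ => p.2 * (1 + q p)) _ 0 :=
      (hasFDerivAt_snd (𝕜 := ℂ) (p := (0 : ℂ × ℂ))).mul (h1.const_add 1)
    have h3 := (hasFDerivAt_fst (𝕜 := ℂ) (p := (0 : ℂ × ℂ))).prodMk h2
    refine h3.congr_fderiv ?_
    refine ContinuousLinearMap.ext fun v => ?_
    apply Prod.ext
    · rfl
    · simp [hq0]
  refine ⟨a, ha, Φ, isBihol_of hΦ0 hΦd hΦ', ?_⟩
  -- the equation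
  have hfst : Tendsto (fun p : ℂ × ℂ => p.1) (𝓝 0) (𝓝 0) := continuous_fst.tendsto (0 : ℂ × ℂ)
  have hsnd : Tendsto (fun p : ℂ × ℂ => p.2) (𝓝 0) (𝓝 0) := continuous_snd.tendsto (0 : ℂ × ℂ)
  have e1 : ∀ᶠ p in 𝓝 (0 : ℂ × ℂ), u p.1 = E (p.1, u (p.1 ^ d)) := hfst.eventually hufix
  have e2 : ∀ᶠ p in 𝓝 (0 : ℂ × ℂ), Theta r c (D (Γ (p.1, u (p.1 ^ d)))) =
      Γ (p.1, u (p.1 ^ d)) := hfst.eventually ((hΓc.comp hX).eventually hDΘ)
  have e3 : ∀ᶠ p in 𝓝 (0 : ℂ × ℂ), p.1 ∈ ball (0 : ℂ) δ :=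
    hfst.eventually (ball_mem_nhds _ hδ)
  have e4 : ∀ᶠ p in 𝓝 (0 : ℂ × ℂ), p.2 ∈ ball (0 : ℂ) r :=
    hsnd.eventually (ball_mem_nhds _ hr)
  filter_upwards [e1, e2, e3, e4] with p hp1 hp2 hp3 hp4
  have hz : ‖p.1‖ < δ := by rwa [mem_ball_zero_iff] at hp3
  have h1 : ev (Theta r c (D (Γ (p.1, u (p.1 ^ d))))) p.2 = ev (Γ (p.1, u (p.1 ^ d))) p.2 := by
    rw [hp2]
  rw [hΓ _ hz _ hp4] at h1
  have h2 : ev (Theta r c (D (Γ (p.1, u (p.1 ^ d))))) p.2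
      = (p.2 * (1 + q p)) ^ c + ∑ j, a j p.1 * (p.2 * (1 + q p)) ^ (j : ℕ) := by
    have h3 : (D (Γ (p.1, u (p.1 ^ d)))).2 = u p.1 := hp1.symm
    unfold Theta
    rw [h3, ev_add, ev_pow _ _ hp4, ev_sum, ev_mul, ev_WW hp4, ev_add, ev_one hp4]
    congr 1
    refine Finset.sum_congr rfl fun j _ => ?_
    rw [ev_smul, ev_pow _ _ hp4, ev_mul, ev_WW hp4, ev_add, ev_one hp4]
  rw [h2] at h1
  apply Prod.ext
  · rfl
  · change (p.2 ^ c + p.1 * h p) * (1 + ev (u (p.1 ^ d)) (p.2 ^ c + p.1 * h p)) =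
      (p.2 * (1 + q p)) ^ c + ∑ j, a j p.1 * (p.2 * (1 + q p)) ^ (j : ℕ)
    rw [h1]

end Q71.SG
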